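import Mathlib
import Pool.Agent.H710R2.DP.Defs
import Pool.Agent.H711R2.KG.Props
import Pool.Agent.H710R2.DP.FTasks

open scoped ComplexOrder InnerProductSpace ComplexConjugate
open Finset

noncomputable section

namespace H710R2.DP

open H759R2.Kad

theorem Fconst_norm_avg {B : Type} [CStarAlgebra B] [Nontrivial B] (a : B) (N : ℕ)
    (g : Fin (N + 1) → unitary B) :
    ‖((N + 1 : ℂ))⁻¹ • ∑ k, (g k : B) * a * star (g k : B)‖ ≤ ‖a‖ := by
  rw [norm_smul]
  have h1 : ‖∑ k, (g k : B) * a * star (g k : B)‖ ≤ ∑ _k : Fin (N + 1), ‖a‖ := by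
    refine (norm_sum_le _ _).trans (Finset.sum_le_sum fun k _ => ?_)
    have h2 : star (g k : B) = ((star (g k) : unitary B) : B) := rfl
    rw [h2, CStarRing.norm_mul_coe_unitary, CStarRing.norm_coe_unitary_mul]
  rw [Finset.sum_const, Finset.card_univ, Fintype.card_fin, nsmul_eq_mul] at h1
  have h3 : ‖((N + 1 : ℂ))⁻¹‖ = ((N : ℝ) + 1)⁻¹ := by
    rw [norm_inv]
    congr 1
    have : ((N : ℂ) + 1) = ((N + 1 : ℕ) : ℂ) := by push_cast; ring
    rw [this, Complex.norm_natCast]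
    push_cast; ring
  rw [h3]
  push_cast at h1
  have h4 : (0 : ℝ) < (N : ℝ) + 1 := by positivity
  calc ((N : ℝ) + 1)⁻¹ * ‖∑ k, (g k : B) * a * star (g k : B)‖
      ≤ ((N : ℝ) + 1)⁻¹ * (((N : ℝ) + 1) * ‖a‖) := by gcongr
    _ = ‖a‖ := by field_simp

theorem dp_Fconst : F_const := by
  intro B _ _ _ hS a ha
  rcases subsingleton_or_nontrivial B with hsub | hnt
  · refine ⟨0, fun ε hε => ⟨0, fun _ => 1, ?_⟩⟩
    rw [Subsingleton.elim (_ - _) (0 : B), norm_zero]
    exact hε.le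
  · choose c hc using fun n : ℕ => hS a ha (1 / ((n : ℝ) + 1)) (by positivity)
    have hb : ∀ n, c n ∈ Metric.closedBall (0 : ℝ) (‖a‖ + 1) := by
      intro n
      obtain ⟨N, g, hg⟩ := hc n
      rw [mem_closedBall_zero_iff]
      have h1 : ‖algebraMap ℂ B (c n : ℂ)‖ = ‖c n‖ := by
        rw [norm_algebraMap', Complex.norm_real]
      rw [← h1]
      have h2 := Fconst_norm_avg a N g
      have h3 : (1 : ℝ) / ((n : ℝ) + 1) ≤ 1 := by
        rw [div_le_one (by positivity)]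
        linarith [Nat.cast_nonneg (α := ℝ) n]
      have h4 := norm_sub_norm_le (algebraMap ℂ B (c n : ℂ))
        (((N + 1 : ℂ))⁻¹ • ∑ k, (g k : B) * a * star (g k : B))
      rw [norm_sub_rev] at h4
      linarith
    obtain ⟨c0, _, φ, hφ, hlim⟩ := (isCompact_closedBall (0 : ℝ) (‖a‖ + 1)).tendsto_subseq hb
    refine ⟨c0, fun ε hε => ?_⟩
    have e1 : ∀ᶠ n in Filter.atTop, |c (φ n) - c0| < ε / 2 := by
      have := (Metric.tendsto_nhds.1 hlim) (ε / 2) (by positivity)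
      simpa [Real.dist_eq] using this
    have e2 : ∀ᶠ n : ℕ in Filter.atTop, 1 / ((n : ℝ) + 1) < ε / 2 := by
      have := tendsto_one_div_add_atTop_nhds_zero_nat (𝕜 := ℝ)
      exact this.eventually_lt_const (by positivity)
    obtain ⟨n, hn1, hn2⟩ := (e1.and e2).exists
    obtain ⟨N, g, hg⟩ := hc (φ n)
    refine ⟨N, g, ?_⟩
    have h5 : 1 / ((φ n : ℝ) + 1) ≤ 1 / ((n : ℝ) + 1) := by
      have : (n : ℝ) ≤ (φ n : ℝ) := by exact_mod_cast hφ.id_le n
      apply one_div_le_one_div_of_le (by positivity)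
      linarith
    have h6 : ‖algebraMap ℂ B (c (φ n) : ℂ) - algebraMap ℂ B (c0 : ℂ)‖ = |c (φ n) - c0| := by
      rw [← map_sub, norm_algebraMap', ← Complex.ofReal_sub, Complex.norm_real, Real.norm_eq_abs]
    have h7 := norm_sub_le_norm_sub_add_norm_sub
      (((N + 1 : ℂ))⁻¹ • ∑ k, (g k : B) * a * star (g k : B)) (algebraMap ℂ B (c (φ n) : ℂ))
      (algebraMap ℂ B (c0 : ℂ))
    rw [h6] at h7
    linarith

end H710R2.DP
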